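import Pool.Agent.H53.GR.Targets
import Pool.Agent.H68.GC.POW

/-!
# The map on the sixth power, all arities
-/

set_option autoImplicit false

namespace Pool.Agent.H95.GR

open Pool.Agent.H68.BP Pool.Agent.H58.SF Pool.Agent.H53.GC Pool.Agent.H53.RG Pool.Agent.H53.GR
open Pool.Agent.H68.GC (pppower_strOn relAt relAt_finite relAt_holds ols_pat hom_strOn poly_strOn)

variable {σ τ : Sig} {V : Type}

/-- The relation on `M`-tuples. -/
def relPw (𝔸 : Str σ V) (M : ℕ) (s : Sym σ M)
    (P : (Fin M → Fin (arP σ M s.1)) → Fin M → V) : Prop :=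
  ∃ x : Fin (arP σ M s.1) → V, relP 𝔸 M s.1 x ∧ (∀ a b, s.2 a = s.2 b → x a = x b) ∧
    ∀ α, P α = fun i => x (α i)

/-- Its image. -/
def relPu (𝔸 : Str σ V) (𝔹 : Str τ V) (M : ℕ) (s : Sym σ M)
    (t : (Fin M → Fin (arP σ M s.1)) → Str τ (Fin M)) : Prop :=
  ∃ x : Fin (arP σ M s.1) → V, relP 𝔸 M s.1 x ∧ (∀ a b, s.2 a = s.2 b → x a = x b) ∧
    ∀ α, t α = spl 𝔹 (fun i => x (α i))

theorem relPw_pp (𝔸 : Str σ V) (M : ℕ) (s : Sym σ M) :
    PPDefinable 𝔸 {z : (Fin M → Fin (arP σ M s.1)) × Fin M → V |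
      relPw 𝔸 M s (fun p i => z (p, i))} := by
  classical
  obtain ⟨o, π⟩ := s
  let Y : Type := Fin (arP σ M o)
  let P : Type := (Fin M → Y) × Fin M
  let Φ : Set (Atom σ (P ⊕ Y)) := relAt σ M P o ∪
    ((fun ab : Y × Y => (Atom.eq (Sum.inr ab.1) (Sum.inr ab.2) : Atom σ (P ⊕ Y))) ''
        {ab | π ab.1 = π ab.2} ∪
      Set.range (fun p : P => (Atom.eq (Sum.inl p) (Sum.inr (p.1 p.2)) : Atom σ (P ⊕ Y))))
  have hΦ : Φ.Finite := (relAt_finite M P o).union (((Set.toFinite _).image _).union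
    (Set.finite_range _))
  have h1 := ppDefinable_of_finite (𝔸 := 𝔸) Φ hΦ
  have h2 : {z : P → V | relPw 𝔸 M ⟨o, π⟩ (fun p i => z (p, i))} =
      {x : P → V | ∃ y : Y → V, ∀ a ∈ Φ, a.Holds 𝔸 (Sum.elim x y)} := by
    ext z
    constructor
    · rintro ⟨x, hx1, hx2, hx3⟩
      refine ⟨x, ?_⟩
      rintro a (ha | ha | ha)
      · exact (relAt_holds 𝔸 M P o z x).2 hx1 a ha
      · obtain ⟨ab, hab, rfl⟩ := ha
        exact hx2 ab.1 ab.2 hab
      · obtain ⟨p, rfl⟩ := ha
        exact congrFun (hx3 p.1) p.2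
    · rintro ⟨x, hx⟩
      refine ⟨x, ?_, ?_, ?_⟩
      · exact (relAt_holds 𝔸 M P o z x).1 fun a ha => hx a (Or.inl ha)
      · intro a b hab
        exact hx _ (Or.inr (Or.inl ⟨(a, b), hab, rfl⟩))
      · intro α
        funext i
        exact hx _ (Or.inr (Or.inr ⟨(α, i), rfl⟩))
  change PPDefinable 𝔸 {z : P → V | relPw 𝔸 M ⟨o, π⟩ (fun p i => z (p, i))}
  rw [h2]
  exact h1

section kernel

variable {W W' : Type} {m : ℕ}

open Classical in
/-- The least index with the same value. -/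
noncomputable def kz (w : Fin m → W) (i : Fin m) : Fin m :=
  (Finset.univ.filter fun j => w j = w i).min' ⟨i, by simp⟩

theorem kz_spec (w : Fin m → W) (i : Fin m) : w (kz w i) = w i := by
  classical
  have h := Finset.min'_mem (Finset.univ.filter fun j => w j = w i) ⟨i, by simp⟩
  exact (Finset.mem_filter.1 h).2

theorem kz_ext {w : Fin m → W} {w' : Fin m → W'} (h : ∀ i j, w i = w j ↔ w' i = w' j) :
    kz w = kz w' := by
  classical
  funext i
  unfold kz
  congr 1
  ext j
  simp [h j i]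

theorem kz_eq (w : Fin m → W) (i j : Fin m) : kz w i = kz w j ↔ w i = w j := by
  classical
  constructor
  · intro h
    rw [← kz_spec w i, h, kz_spec w j]
  · intro h
    unfold kz
    congr 1
    ext k
    simp [h]

end kernel

/-- The first `a` entries, then the entry number zero. -/
def ext {a M : ℕ} (ha : 1 ≤ a) {W : Type} (u : Fin a → W) (i : Fin M) : W :=
  if h : (i : ℕ) < a then u ⟨i, h⟩ else u ⟨0, ha⟩

theorem ext_castLE {a M : ℕ} (ha : 1 ≤ a) (hM : a ≤ M) {W : Type} (u : Fin a → W) (i : Fin a) :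
    ext ha u (Fin.castLE hM i) = u i := by
  unfold ext
  rw [dif_pos (by simp)]
  rfl

theorem ext_map {a M : ℕ} (ha : 1 ≤ a) {W W' : Type} (f : W → W') (u : Fin a → W) (i : Fin M) :
    f (ext ha u i) = ext ha (fun j => f (u j)) i := by
  unfold ext
  split_ifs <;> rfl

theorem pat_inj {X : Type} (r : Fin 3) (x y x' y' : X) :
    pat r x y = pat r x' y' ↔ x = x' ∧ y = y' := by
  constructor
  · intro h
    have h0 := congrFun h 0
    have h1 := congrFun h 1
    have h2 := congrFun h 2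
    fin_cases r
    · exact ⟨h0, h2⟩
    · exact ⟨h0, h1⟩
    · exact ⟨h1, h0⟩
  · rintro ⟨rfl, rfl⟩
    rfl

theorem pat_fun {X I : Type} (r : Fin 3) (x y : I → X) :
    (fun (c : Fin 6) (i : I) => pat r (x i) (y i) c) = pat r x y := by
  funext c i
  fin_cases r <;> fin_cases c <;> rfl

theorem pf_POW : Pool.Agent.H53.GR.T_POW := by
  classical
  intro σ τ V 𝔸 𝔹 M hV hne hM har hol hK
  by_contra hcon
  apply hK
  have hVc : Countable V := hV
  let ℙ := strOn (relPw 𝔸 M)
  let 𝕋 := strOn (relPu 𝔸 𝔹 M)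
  have hfin : Finite (Str τ (Fin M)) := by
    unfold Str
    infer_instance
  have hP : PPPower 𝔸 M ℙ := pppower_strOn _ (relPw_pp 𝔸 M)
  have hne' : Nonempty (Fin M → V) := inferInstance
  refine Pool.Agent.H51.SF.pf_TR _ _ V 𝔸 M ℙ hM hP ?_
  refine Pool.Agent.H53.FC.K3_of_no_olsak (𝔸 := ℙ) (𝕋 := 𝕋) inferInstance
    (Pool.Agent.H81.SF.pf_PO _ _ V 𝔸 M ℙ hP hol) ⟨fun P => spl 𝔹 P, ?_⟩ ?_
  · refine (hom_strOn _ _ _).2 ?_
    rintro s P ⟨x, hx1, hx2, hx3⟩
    refine ⟨x, hx1, hx2, fun α => ?_⟩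
    change spl 𝔹 (P α) = _
    rw [hx3 α]
  · intro h0 hpoly ho
    apply hcon
    have hp := (poly_strOn _ _ _).1 hpoly
    refine ⟨fun l u => h0 (fun c i => ext (har l).1 u i c) l
      (fun i => Fin.castLE (har l).2 (kz u i)), ?_, ?_⟩
    · intro s v hv
      obtain ⟨x, hx1, hx2, hx3⟩ := hp ⟨s, kz v⟩ (fun c α i => v (α i) c)
        (fun c => ⟨fun a => v a c, hv c,
          fun a b hab => congrFun ((kz_eq v a b).1 hab) c, fun α => rfl⟩)
      have hx4 : ∀ a b, v a = v b → x a = x b := fun a b hab => hx2 a b ((kz_eq v a b).2 hab)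
      refine ⟨x, hx1, hx4, fun l z => ?_⟩
      have e1 : (fun (c : Fin 6) (i : Fin M) => ext (har l).1 (fun i => v (z i)) i c) =
          fun c i => v (ext (har l).1 z i) c := by
        funext c i
        rw [ext_map (har l).1 v z i]
      have e2 := hx3 (ext (har l).1 z)
      have e3 : ∀ i, ext (har l).1 z (Fin.castLE (har l).2 (kz (fun i => v (z i)) i)) =
          z (kz (fun i => v (z i)) i) := fun i => ext_castLE _ _ _ _
      have e4 : ∀ i, x (z (kz (fun i => v (z i)) i)) = x (z i) := fun i =>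
        hx4 _ _ (kz_spec (fun i => v (z i)) i)
      change h0 (fun c i => ext (har l).1 (fun i => v (z i)) i c) l
        (fun i => Fin.castLE (har l).2 (kz (fun i => v (z i)) i)) ↔ _
      rw [e1]
      change h0 (fun c i => v (ext (har l).1 z i) c) = _ at e2
      rw [e2]
      unfold spl
      simp only [e3, e4]
      refine and_congr Iff.rfl ⟨fun h i j hij => ?_, fun h i j hij => ?_⟩
      · exact (kz_eq (fun i => v (z i)) i j).1 (Fin.castLE_injective _ (h i j hij))
      · rw [(kz_eq (fun i => v (z i)) i j).2 (h i j hij)]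
    · intro r l x y
      have key : ∀ r : Fin 3, (fun (c : Fin 6) (i : Fin M) =>
          ext (har l).1 (fun i => pat r (x i) (y i)) i c) =
          pat r (ext (har l).1 x) (ext (har l).1 y) := by
        intro r
        rw [← pat_fun]
        funext c i
        unfold ext
        split_ifs <;> rfl
      have hz : kz (fun i => pat r (x i) (y i)) = kz (fun i => pat 0 (x i) (y i)) :=
        kz_ext fun i j => by rw [pat_inj, pat_inj]
      change h0 (fun c i => ext (har l).1 (fun i => pat r (x i) (y i)) i c) l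
        (fun i => Fin.castLE (har l).2 (kz (fun i => pat r (x i) (y i)) i)) ↔
        h0 (fun c i => ext (har l).1 (fun i => pat 0 (x i) (y i)) i c) l
        (fun i => Fin.castLE (har l).2 (kz (fun i => pat 0 (x i) (y i)) i))
      rw [key r, key 0, hz, ols_pat ho r]

end Pool.Agent.H95.GR
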