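import Pool.Agent.H95.GR.POW

/-!
# Canonization, all arities
-/

set_option autoImplicit false

namespace Pool.Agent.H95.GR

open Pool.Agent.H68.BP Pool.Agent.H58.SF Pool.Agent.H53.GC Pool.Agent.H53.NR Pool.Agent.H53.GR
open Pool.Agent.H53.RG (ulim ulim_spec cone cone_mem)

private lemma inj_on {V : Type} [LinearOrder V] {g : V → V} {K : Finset V}
    (hg : ∀ x ∈ K, ∀ y ∈ K, x < y → g x < g y) {x y : V} (hx : x ∈ K) (hy : y ∈ K)
    (h : g x = g y) : x = y := by
  rcases lt_trichotomy x y with h1 | h1 | h1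
  · exact absurd h (hg _ hx _ hy h1).ne
  · exact h1
  · exact absurd h.symm (hg _ hy _ hx h1).ne

private lemma relP_map {V : Type} [LinearOrder V] {σ τ : Sig} {𝔸 : Str σ V} {𝔹 : Str τ V} {M : ℕ}
    (hs : ClosedUnderSplitting 𝔸 𝔹) {g : V → V} {K : Finset V}
    (hg : ∀ x ∈ K, ∀ y ∈ K, x < y → g x < g y)
    (hb : ∀ (l : Fin τ.m) (z : Fin (τ.ar l) → V), (∀ i, z i ∈ K) →
      (𝔹 l (fun i => g (z i)) ↔ 𝔹 l z)) (s : Option (Fin σ.m))
    (x : Fin (arP σ M s) → V) (hK : ∀ a, x a ∈ K) (hx : relP 𝔸 M s x) :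
    relP 𝔸 M s (fun a => g (x a)) := by
  cases s with
  | none => trivial
  | some l =>
    refine hs l x (fun a => g (x a)) hx ⟨fun a b hab => inj_on hg (hK a) (hK b) hab, ?_⟩
    intro l' a
    refine (hb l' (fun i => x (a i)) fun i => hK _).trans ?_
    exact ⟨fun h => ⟨h, fun i j hij => congrArg g hij⟩, fun h => h.1⟩

private lemma sameTp_comp {V W W' : Type} [LinearOrder V] {τ : Sig} {𝔹 : Str τ V} {x y : W → V}
    (h : SameTp 𝔹 x y) (φ : W' → W) : SameTp 𝔹 (fun w => x (φ w)) (fun w => y (φ w)) := by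
  refine ⟨fun i j => h.1 _ _, ?_⟩
  have h2 := h.2
  funext l z
  exact congrFun (congrFun h2 l) (fun i => φ (z i))

theorem pf_CAN : Pool.Agent.H53.GR.T_CAN := by
  intro σ τ V _ 𝔸 𝔹 M har hR hs H hh
  obtain ⟨k, ⟨e⟩⟩ := Finite.exists_equiv_fin (Fin τ.m → Prop)
  have key : ∀ K : Finset V, ∃ g : V → V, (∀ x ∈ K, ∀ y ∈ K, x < y → g x < g y) ∧
      (∀ (l : Fin τ.m) (z : Fin (τ.ar l) → V), (∀ i, z i ∈ K) →
        (𝔹 l (fun i => g (z i)) ↔ 𝔹 l z)) ∧
      ∀ (l : Fin τ.m) (u u' : Fin (τ.ar l) → Fin 6 → V), (∀ i c, u i c ∈ K) →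
        (∀ i c, u' i c ∈ K) →
        SameTp 𝔹 (fun q : Fin (τ.ar l) × Fin 6 => u q.1 q.2) (fun q => u' q.1 q.2) →
        (H l (fun i c => g (u i c)) ↔ H l (fun i c => g (u' i c))) := by
    intro K
    obtain ⟨g, h1, h2, h3⟩ := hR (M * 6) k K (fun z => e (fun l =>
      H l (fun i c => z (finProdFinEquiv (Fin.castLE (har l).2 i, c)))))
    refine ⟨g, h1, h2, fun l u u' hu hu' hT => ?_⟩
    let φ : Fin (M * 6) → Fin (τ.ar l) × Fin 6 := fun q =>
      (ext (har l).1 id (finProdFinEquiv.symm q).1, (finProdFinEquiv.symm q).2)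
    have h4 := h3 (fun q => u (φ q).1 (φ q).2) (fun q => u' (φ q).1 (φ q).2)
      (fun q => hu _ _) (fun q => hu' _ _) (sameTp_comp hT φ)
    have h5 := congrFun (e.injective h4) l
    have h6 : ∀ (i : Fin (τ.ar l)) (c : Fin 6),
        φ (finProdFinEquiv (Fin.castLE (har l).2 i, c)) = (i, c) := by
      intro i c
      simp only [φ, Equiv.symm_apply_apply]
      rw [ext_castLE]
      rfl
    simp only [h6] at h5
    exact iff_of_eq h5
  choose g hg hb hT using key
  have hu : ∀ (l : Fin τ.m) (u : Fin (τ.ar l) → Fin 6 → V),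
      ∀ᶠ K in ((cone V : Ultrafilter (Finset V)) : Filter (Finset V)),
      H l (fun i c => g K (u i c)) = ulim (cone V) (fun K => H l (fun i c => g K (u i c))) :=
    fun l u => ulim_spec _ _
  have hF : ∀ {I : Type} [Finite I] (v : I → Fin 6 → V),
      ∀ᶠ K in ((cone V : Ultrafilter (Finset V)) : Filter (Finset V)), ∀ i c, v i c ∈ K := by
    intro I _ v
    refine Filter.eventually_all.2 fun i => Filter.eventually_all.2 fun c => ?_
    filter_upwards [cone_mem {v i c}] with K hK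
    exact hK (Finset.mem_singleton_self _)
  refine ⟨fun l u => ulim (cone V) (fun K => H l (fun i c => g K (u i c))), ⟨?_, ?_⟩, ?_⟩
  · intro s v hv
    have h1 : ∀ᶠ K in ((cone V : Ultrafilter (Finset V)) : Filter (Finset V)),
        ∀ (l : Fin τ.m) (z : Fin (τ.ar l) → Fin (arP σ M s)),
          H l (fun i c => g K (v (z i) c)) =
            ulim (cone V) (fun K => H l (fun i c => g K (v (z i) c))) :=
      Filter.eventually_all.2 fun l => Filter.eventually_all.2 fun z => hu l (fun i => v (z i))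
    obtain ⟨K, hK, hK2⟩ := (h1.and (hF v)).exists
    obtain ⟨x, hx1, hx2, hx3⟩ := hh.rel s (fun a c => g K (v a c))
      (fun c => relP_map hs (hg K) (hb K) s _ (fun a => hK2 a c) (hv c))
    have hinj : ∀ a b, (fun c => g K (v a c)) = (fun c => g K (v b c)) ↔ v a = v b := by
      intro a b
      constructor
      · intro h
        funext c
        exact inj_on (hg K) (hK2 a c) (hK2 b c) (congrFun h c)
      · intro h
        rw [h]
    refine ⟨x, hx1, fun a b hab => hx2 a b ((hinj a b).2 hab), fun l z => ?_⟩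
    have h3 := hx3 l z
    rw [← iff_of_eq (hK l z)]
    refine h3.trans ?_
    simp only [hinj]
  · intro r l x y
    obtain ⟨K, hK1, hK2⟩ := ((hu l (fun i => pat r (x i) (y i))).and
      (hu l (fun i => pat 0 (x i) (y i)))).exists
    have e1 : ∀ (r : Fin 3), (fun (i : Fin (τ.ar l)) (c : Fin 6) => g K (pat r (x i) (y i) c)) =
        fun i => pat r (g K (x i)) (g K (y i)) :=
      fun r => funext fun i => funext fun c => pat_map (g K) r (x i) (y i) c
    rw [← iff_of_eq hK1, ← iff_of_eq hK2, e1, e1]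
    exact hh.exact r l _ _
  · intro l u u' huu
    obtain ⟨K, ⟨⟨h1, h2⟩, h3⟩, h4⟩ := ((((hu l u).and (hu l u')).and (hF u)).and (hF u')).exists
    exact (iff_of_eq h1).symm.trans ((hT K l u u' h3 h4 huu).trans (iff_of_eq h2))

end Pool.Agent.H95.GR
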